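import Mathlib
import Pool.Agent.W523.LV.Stmts2

/-!
# LV-WT: the weight and the wave
-/

set_option autoImplicit false

open Finset

namespace Pool.Agent.W191.LV

open Pool.Agent.H96R3.BC (vv UU CC cf Wts Bf EE NN KK mem_CC)
open Pool.Agent.W523.LV

/-! ## counting integers in an interval -/

theorem cnt (S : Finset ℕ) (a b : ℝ) (hab : a ≤ b) (h : ∀ n ∈ S, a ≤ (n : ℝ) ∧ (n : ℝ) ≤ b) :
    (S.card : ℝ) ≤ b - a + 1 := by
  rcases S.eq_empty_or_nonempty with hS | hS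
  · rw [hS]
    simp only [Finset.card_empty, Nat.cast_zero]
    linarith
  · have h1 : S ⊆ Finset.Icc (S.min' hS) (S.max' hS) := fun n hn =>
      Finset.mem_Icc.2 ⟨S.min'_le n hn, S.le_max' n hn⟩
    have h2 := Finset.card_le_card h1
    rw [Nat.card_Icc] at h2
    have h3 : S.min' hS ≤ S.max' hS := S.min'_le _ (S.max'_mem hS)
    have h4 : S.card + S.min' hS ≤ S.max' hS + 1 := by omega
    have h5 : (S.card : ℝ) + (S.min' hS : ℝ) ≤ (S.max' hS : ℝ) + 1 := by exact_mod_cast h4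
    have h6 := (h _ (S.min'_mem hS)).1
    have h7 := (h _ (S.max'_mem hS)).2
    linarith

/-! ## the profile -/

/-- the profile -/
noncomputable def ph (N : ℕ) (z : ℕ → ℕ) (D₀ : ℝ) (x : ℝ) : ℝ := min (Metric.infDist x (Zs N z)) D₀

theorem ph_nonneg (N : ℕ) (z : ℕ → ℕ) (D₀ : ℝ) (hD : 0 ≤ D₀) (x : ℝ) : 0 ≤ ph N z D₀ x :=
  le_min Metric.infDist_nonneg hD

theorem ph_le (N : ℕ) (z : ℕ → ℕ) (D₀ : ℝ) (x : ℝ) : ph N z D₀ x ≤ D₀ := min_le_right _ _

theorem ph_lip (N : ℕ) (z : ℕ → ℕ) (D₀ : ℝ) (x y : ℝ) : ph N z D₀ x ≤ ph N z D₀ y + |x - y| := by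
  unfold ph
  have h1 : Metric.infDist x (Zs N z) ≤ Metric.infDist y (Zs N z) + |x - y| :=
    Metric.infDist_le_infDist_add_dist
  rw [← min_add_add_right]
  exact min_le_min h1 (by linarith [abs_nonneg (x - y)])

theorem ph_lip' (N : ℕ) (z : ℕ → ℕ) (D₀ : ℝ) (x y : ℝ) :
    |ph N z D₀ x - ph N z D₀ y| ≤ |x - y| := by
  rw [abs_le]
  have h1 := ph_lip N z D₀ x y
  have h2 := ph_lip N z D₀ y x
  rw [abs_sub_comm y x] at h2
  constructor <;> linarith

theorem ph_zero (N : ℕ) (z : ℕ → ℕ) (D₀ : ℝ) (hD : 0 ≤ D₀) (m : ℕ) (hm : m < 2 * N) :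
    ph N z D₀ (z m) = 0 := by
  unfold ph
  rw [Metric.infDist_zero_of_mem (show ((z m : ℕ) : ℝ) ∈ Zs N z from ⟨m, hm, rfl⟩)]
  exact min_eq_left hD

theorem ph_le_dist (N : ℕ) (z : ℕ → ℕ) (D₀ : ℝ) (hD : 0 ≤ D₀) (m : ℕ) (hm : m < 2 * N) (x : ℝ) :
    ph N z D₀ x ≤ |x - z m| := by
  have := ph_lip N z D₀ x (z m)
  rw [ph_zero N z D₀ hD m hm] at this
  linarith

/-- a lower bound by the distances -/
theorem le_inf (N : ℕ) (hN : 1 ≤ N) (z : ℕ → ℕ) (x d : ℝ) (h : ∀ m, m < 2 * N → d ≤ |x - z m|) :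
    d ≤ Metric.infDist x (Zs N z) := by
  have hne : (Zs N z).Nonempty := ⟨z 0, 0, by omega, rfl⟩
  refine (Metric.le_infDist hne).2 ?_
  rintro y ⟨m, hm, rfl⟩
  exact h m hm

/-- the sign is constant between the crossing points -/
theorem sg_ne (N : ℕ) (z : ℕ → ℕ) (x y : ℝ) (hxy : x ≤ y) (h : sg N z x ≠ sg N z y) :
    ∃ m, m < 2 * N ∧ x < z m ∧ (z m : ℝ) ≤ y := by
  classical
  by_contra hcon
  push Not at hcon
  apply h
  unfold sg
  congr 2
  ext m
  simp only [Finset.mem_filter, Finset.mem_range]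
  constructor
  · rintro ⟨h1, h2⟩
    exact ⟨h1, h2.trans hxy⟩
  · rintro ⟨h1, h2⟩
    refine ⟨h1, ?_⟩
    by_contra h3
    exact absurd h2 (not_le.2 (hcon m h1 (not_le.1 h3)))

theorem sg_pm (N : ℕ) (z : ℕ → ℕ) (x : ℝ) : sg N z x = 1 ∨ sg N z x = -1 := by
  unfold sg
  exact neg_one_pow_eq_or ℝ _

theorem trap_lip_aux (N : ℕ) (z : ℕ → ℕ) (D₀ : ℝ) (hD : 0 ≤ D₀) (x y : ℝ) (hxy : x ≤ y) :
    |trap N z D₀ x - trap N z D₀ y| ≤ |x - y| := by
  have e : ∀ x, trap N z D₀ x = sg N z x * ph N z D₀ x := fun x => rfl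
  rw [e, e]
  by_cases h : sg N z x = sg N z y
  · rw [← h, ← mul_sub, abs_mul]
    have : |sg N z x| = 1 := by
      rcases sg_pm N z x with h | h <;> rw [h] <;> simp
    rw [this, one_mul]
    exact ph_lip' N z D₀ x y
  · obtain ⟨m, hm, h1, h2⟩ := sg_ne N z x y hxy h
    have h3 := ph_le_dist N z D₀ hD m hm x
    have h4 := ph_le_dist N z D₀ hD m hm y
    rw [abs_of_neg (by linarith : x - (z m : ℝ) < 0)] at h3
    rw [abs_of_nonneg (by linarith : 0 ≤ y - (z m : ℝ))] at h4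
    have h5 := ph_nonneg N z D₀ hD x
    have h6 := ph_nonneg N z D₀ hD y
    have a1 : |sg N z x * ph N z D₀ x| ≤ ph N z D₀ x := by
      rw [abs_mul, abs_of_nonneg h5]
      rcases sg_pm N z x with h | h <;> rw [h] <;> simp
    have a2 : |sg N z y * ph N z D₀ y| ≤ ph N z D₀ y := by
      rw [abs_mul, abs_of_nonneg h6]
      rcases sg_pm N z y with h | h <;> rw [h] <;> simp
    calc |sg N z x * ph N z D₀ x - sg N z y * ph N z D₀ y|
        ≤ |sg N z x * ph N z D₀ x| + |sg N z y * ph N z D₀ y| := abs_sub _ _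
      _ ≤ (-(x - z m)) + (y - z m) := by linarith
      _ = |x - y| := by
          rw [abs_of_nonpos (by linarith : x - y ≤ 0)]
          ring

theorem trap_lip (N : ℕ) (z : ℕ → ℕ) (D₀ : ℝ) (hD : 0 ≤ D₀) (x y : ℝ) :
    |trap N z D₀ x - trap N z D₀ y| ≤ |x - y| := by
  rcases le_total x y with h | h
  · exact trap_lip_aux N z D₀ hD x y h
  · rw [abs_sub_comm, abs_sub_comm x y]
    exact trap_lip_aux N z D₀ hD y x h

/-! ## the geometry -/

/-- the standing assumptions -/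
structure Geo (N : ℕ) (z : ℕ → ℕ) (A B : ℕ) (len D₀ : ℝ) : Prop where
  hN : 1 ≤ N
  hlen : 0 < len
  hB : (B : ℝ) = A + len
  hz : ∀ m, m < 2 * N → |(z m : ℝ) - (A + (2 * m + 1) / (4 * N) * len)| ≤ len / (64 * N)
  hD1 : len / (32 * N) ≤ D₀
  hD2 : D₀ ≤ len / (16 * N)

section

variable {N : ℕ} {z : ℕ → ℕ} {A B : ℕ} {len D₀ : ℝ}

theorem Geo.Npos (g : Geo N z A B len D₀) : (0 : ℝ) < N := by
  have := g.hN
  exact_mod_cast this

theorem Geo.Dpos (g : Geo N z A B len D₀) : 0 < D₀ := by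
  have h1 := g.Npos
  have h2 := g.hlen
  have h3 : 0 < len / (32 * N) := by positivity
  exact lt_of_lt_of_le h3 g.hD1

/-- the unit `len / (64 N)` -/
theorem Geo.unit (g : Geo N z A B len D₀) : ∃ e : ℝ, 0 < e ∧ len = 64 * N * e ∧
    2 * e ≤ D₀ ∧ D₀ ≤ 4 * e ∧
    ∀ m, m < 2 * N → |(z m : ℝ) - (A + (32 * m + 16) * e)| ≤ e := by
  have h1 := g.Npos
  refine ⟨len / (64 * N), ?_, ?_, ?_, ?_, ?_⟩
  · have := g.hlen
    positivity
  · field_simp
  · refine le_trans (le_of_eq ?_) g.hD1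
    field_simp
    ring
  · refine le_trans g.hD2 (le_of_eq ?_)
    field_simp
    ring
  · intro m hm
    have h2 := g.hz m hm
    have e : (A : ℝ) + (2 * m + 1) / (4 * N) * len = A + (32 * m + 16) * (len / (64 * N)) := by
      field_simp
      ring
    rw [e] at h2
    exact h2

theorem Geo.lo (g : Geo N z A B len D₀) (m : ℕ) (hm : m < 2 * N) : (A : ℝ) + D₀ ≤ z m := by
  obtain ⟨e, he, h1, h2, h3, h4⟩ := g.unit
  have h5 := (abs_le.1 (h4 m hm)).1
  have h6 : (0 : ℝ) ≤ m := Nat.cast_nonneg m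
  nlinarith

theorem Geo.hi (g : Geo N z A B len D₀) (m : ℕ) (hm : m < 2 * N) : (z m : ℝ) + D₀ ≤ B := by
  obtain ⟨e, he, h1, h2, h3, h4⟩ := g.unit
  have h5 := (abs_le.1 (h4 m hm)).2
  have h6 : (m : ℝ) + 1 ≤ 2 * N := by exact_mod_cast hm
  rw [g.hB, h1]
  nlinarith

theorem Geo.trapA (g : Geo N z A B len D₀) : trap N z D₀ (A : ℝ) = D₀ := by
  classical
  unfold trap sg
  have h1 : (range (2 * N)).filter (fun m => (z m : ℝ) ≤ A) = ∅ := by
    rw [Finset.filter_eq_empty_iff]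
    intro m hm
    have := g.lo m (Finset.mem_range.1 hm)
    have := g.Dpos
    intro h
    linarith
  rw [h1, Finset.card_empty, pow_zero, one_mul]
  refine min_eq_right (le_inf N g.hN z _ _ fun m hm => ?_)
  have := g.lo m hm
  have h3 := neg_le_abs ((A : ℝ) - z m)
  linarith

theorem Geo.trapB (g : Geo N z A B len D₀) : trap N z D₀ (B : ℝ) = D₀ := by
  classical
  unfold trap sg
  have h1 : (range (2 * N)).filter (fun m => (z m : ℝ) ≤ B) = range (2 * N) := by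
    rw [Finset.filter_eq_self]
    intro m hm
    have := g.hi m (Finset.mem_range.1 hm)
    have := g.Dpos
    linarith
  rw [h1, Finset.card_range, pow_mul, neg_one_sq, one_pow, one_mul]
  refine min_eq_right (le_inf N g.hN z _ _ fun m hm => ?_)
  have := g.hi m hm
  have h3 := le_abs_self ((B : ℝ) - z m)
  linarith

theorem Geo.WtA (g : Geo N z A B len D₀) : Wt N z D₀ A = 0 := by
  unfold Wt
  rw [if_neg]
  rintro ⟨h, _⟩
  have h1 := g.lo 0 (by have := g.hN; omega)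
  have h2 : (z 0 : ℝ) ≤ A := by exact_mod_cast h
  have := g.Dpos
  linarith

theorem Geo.WtB (g : Geo N z A B len D₀) : Wt N z D₀ B = 0 := by
  unfold Wt
  rw [if_neg]
  rintro ⟨_, h⟩
  have h1 := g.hi (2 * N - 1) (by have := g.hN; omega)
  have h2 : (B : ℝ) ≤ z (2 * N - 1) := by exact_mod_cast h
  have := g.Dpos
  linarith

theorem Geo.Wt01 (g : Geo N z A B len D₀) (n : ℕ) : 0 ≤ Wt N z D₀ n ∧ Wt N z D₀ n ≤ 1 := by
  have hD := g.Dpos
  unfold Wt
  split_ifs
  · exact ⟨div_nonneg (ph_nonneg N z D₀ hD.le n) hD.le, (div_le_one hD).2 (ph_le N z D₀ n)⟩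
  · exact ⟨le_rfl, zero_le_one⟩

theorem Geo.Wt_aux (g : Geo N z A B len D₀) (n k : ℕ) :
    Wt N z D₀ n - Wt N z D₀ k ≤ |(n : ℝ) - k| / D₀ := by
  have hD := g.Dpos
  have e : ∀ n : ℕ, min (Metric.infDist (n : ℝ) (Zs N z)) D₀ / D₀ = ph N z D₀ n / D₀ := fun n => rfl
  unfold Wt
  rw [e, e]
  have hn0 := ph_nonneg N z D₀ hD.le n
  have hk0 := ph_nonneg N z D₀ hD.le k
  have hab := abs_nonneg ((n : ℝ) - k)
  split_ifs with h1 h2 h2
  · rw [← sub_div, div_le_div_iff_of_pos_right hD]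
    linarith [ph_lip N z D₀ n k]
  · rw [sub_zero, div_le_div_iff_of_pos_right hD]
    have h3 : k < z 0 ∨ z (2 * N - 1) < k := by
      by_contra hcon
      push Not at hcon
      exact h2 hcon
    rcases h3 with h3 | h3
    · refine (ph_le_dist N z D₀ hD.le 0 (by have := g.hN; omega) n).trans ?_
      have h4 : (k : ℝ) < z 0 := by exact_mod_cast h3
      have h5 : (z 0 : ℝ) ≤ n := by exact_mod_cast h1.1
      rw [abs_of_nonneg (by linarith), abs_of_nonneg (by linarith)]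
      linarith
    · refine (ph_le_dist N z D₀ hD.le (2 * N - 1) (by have := g.hN; omega) n).trans ?_
      have h4 : (z (2 * N - 1) : ℝ) < k := by exact_mod_cast h3
      have h5 : (n : ℝ) ≤ z (2 * N - 1) := by exact_mod_cast h1.2
      rw [abs_of_nonpos (by linarith), abs_of_nonpos (by linarith)]
      linarith
  · rw [zero_sub]
    have : 0 ≤ ph N z D₀ k / D₀ := div_nonneg hk0 hD.le
    have : 0 ≤ |(n : ℝ) - k| / D₀ := div_nonneg hab hD.le
    linarith
  · rw [sub_zero]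
    positivity

theorem Geo.Wt_lip (g : Geo N z A B len D₀) (n k : ℕ) :
    |Wt N z D₀ n - Wt N z D₀ k| ≤ 32 * N * |(n : ℝ) - k| / len := by
  have hD := g.Dpos
  have hN := g.Npos
  have hlen := g.hlen
  have h1 : |Wt N z D₀ n - Wt N z D₀ k| ≤ |(n : ℝ) - k| / D₀ := by
    rw [abs_le]
    have h2 := g.Wt_aux n k
    have h3 := g.Wt_aux k n
    rw [abs_sub_comm (k : ℝ)] at h3
    constructor <;> linarith
  refine h1.trans ?_
  rw [div_le_div_iff₀ hD hlen]
  have h4 : len ≤ 32 * N * D₀ := by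
    have := g.hD1
    rw [div_le_iff₀ (by positivity)] at this
    linarith
  nlinarith [abs_nonneg ((n : ℝ) - k)]

/-- the bad integers -/
theorem Geo.bad (g : Geo N z A B len D₀) (n : ℕ) (h : ¬ 1 / 2 ≤ Wt N z D₀ n) :
    n < z 0 ∨ z (2 * N - 1) < n ∨ ∃ m, m < 2 * N ∧ |(n : ℝ) - z m| ≤ D₀ / 2 := by
  have hD := g.Dpos
  by_contra hcon
  push Not at hcon
  obtain ⟨h1, h2, h3⟩ := hcon
  apply h
  unfold Wt
  rw [if_pos ⟨h1, h2⟩, div_le_div_iff₀ (by norm_num) hD, one_mul]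
  have h4 : D₀ / 2 ≤ min (Metric.infDist (n : ℝ) (Zs N z)) D₀ :=
    le_min (le_inf N g.hN z _ _ fun m hm => (h3 m hm).le) (by linarith)
  linarith

/-- many good integers -/
theorem Geo.half (g : Geo N z A B len D₀) (q : ℝ) (hq : 1 ≤ q) (hNq : 400 * q ≤ N)
    (hbig : 10000 * N * q ≤ len) (x y : ℕ) (hx : A ≤ x) (hy : y ≤ B) (hxy : x < y)
    (hl : len ≤ 32 * q * ((y : ℝ) - x)) :
    ((y : ℝ) - x) ≤ 2 * (((Ico x y).filter (fun n => 1 / 2 ≤ Wt N z D₀ n)).card : ℝ) := by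
  classical
  obtain ⟨e, he, h1, h2, h3, h4⟩ := g.unit
  have hN := g.Npos
  have hN1 := g.hN
  have hD := g.Dpos
  set l : ℝ := (y : ℝ) - x with hldef
  have hl0 : 0 < l := by
    have : (x : ℝ) < y := by exact_mod_cast hxy
    rw [hldef]
    linarith
  have hlB : l ≤ len := by
    have a1 : (A : ℝ) ≤ x := by exact_mod_cast hx
    have a2 : (y : ℝ) ≤ B := by exact_mod_cast hy
    rw [g.hB] at a2
    rw [hldef]
    linarith
  -- the bad integers
  set S := (Ico x y).filter (fun n => ¬ 1 / 2 ≤ Wt N z D₀ n) with hS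
  have hsum : (((Ico x y).filter (fun n => 1 / 2 ≤ Wt N z D₀ n)).card : ℝ) + (S.card : ℝ) = l := by
    have := Finset.card_filter_add_card_filter_not (s := Ico x y)
      (fun n => 1 / 2 ≤ Wt N z D₀ n)
    rw [Nat.card_Ico] at this
    have h5 : ((((Ico x y).filter (fun n => 1 / 2 ≤ Wt N z D₀ n)).card + S.card : ℕ) : ℝ) =
        ((y - x : ℕ) : ℝ) := by
      rw [← this]
    rw [Nat.cast_sub hxy.le] at h5
    push_cast at h5
    exact h5
  set S1 := (Ico x y).filter (fun n => n < z 0) with hS1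
  set S2 := (Ico x y).filter (fun n => z (2 * N - 1) < n) with hS2
  set Tm : ℕ → Finset ℕ := fun m => (Ico x y).filter (fun n : ℕ => |(n : ℝ) - z m| ≤ D₀ / 2) with hTm
  set I := (range (2 * N)).filter (fun m => (Tm m).Nonempty) with hI
  have hsub : S ⊆ S1 ∪ (S2 ∪ I.biUnion Tm) := by
    intro n hn
    rw [hS, Finset.mem_filter] at hn
    rw [Finset.mem_union, Finset.mem_union, Finset.mem_biUnion]
    rcases g.bad n hn.2 with h | h | ⟨m, hm, h⟩
    · exact Or.inl (Finset.mem_filter.2 ⟨hn.1, h⟩)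
    · exact Or.inr (Or.inl (Finset.mem_filter.2 ⟨hn.1, h⟩))
    · have hnm : n ∈ Tm m := Finset.mem_filter.2 ⟨hn.1, h⟩
      exact Or.inr (Or.inr ⟨m, Finset.mem_filter.2 ⟨Finset.mem_range.2 hm, ⟨n, hnm⟩⟩, hnm⟩)
  have c1 : (S1.card : ℝ) ≤ 17 * e + 1 := by
    have hz0 := (abs_le.1 (h4 0 (by omega))).2
    push_cast at hz0
    have h0 := g.lo 0 (by omega)
    refine (cnt S1 A (z 0) (by linarith) fun n hn => ?_).trans (by linarith)
    rw [hS1, Finset.mem_filter, Finset.mem_Ico] at hn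
    constructor
    · exact_mod_cast hx.trans hn.1.1
    · exact_mod_cast hn.2.le
  have c2 : (S2.card : ℝ) ≤ 17 * e + 1 := by
    have hz0 := (abs_le.1 (h4 (2 * N - 1) (by omega))).1
    have h0 := g.hi (2 * N - 1) (by omega)
    have hc : ((2 * N - 1 : ℕ) : ℝ) = 2 * N - 1 := by
      rw [Nat.cast_sub (by omega)]
      push_cast
      ring
    rw [hc] at hz0
    refine (cnt S2 (z (2 * N - 1)) B (by linarith) fun n hn => ?_).trans ?_
    · rw [hS2, Finset.mem_filter, Finset.mem_Ico] at hn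
      constructor
      · exact_mod_cast hn.2.le
      · exact_mod_cast hn.1.2.le.trans hy
    · rw [g.hB, h1]
      linarith
  have c3 : ∀ m, ((Tm m).card : ℝ) ≤ D₀ + 1 := by
    intro m
    refine (cnt (Tm m) (z m - D₀ / 2) (z m + D₀ / 2) (by linarith) fun n hn => ?_).trans
      (by linarith)
    rw [hTm, Finset.mem_filter] at hn
    have := abs_le.1 hn.2
    constructor <;> linarith [this.1, this.2]
  have c4 : (I.card : ℝ) ≤ l / (32 * e) + 2 := by
    have key : ∀ m ∈ I, ((x : ℝ) - A - 19 * e) / (32 * e) ≤ m ∧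
        (m : ℝ) ≤ ((y : ℝ) - A - 13 * e) / (32 * e) := by
      intro m hm
      rw [hI, Finset.mem_filter, Finset.mem_range] at hm
      obtain ⟨hm1, n, hn⟩ := hm
      rw [hTm, Finset.mem_filter, Finset.mem_Ico] at hn
      have a1 := abs_le.1 hn.2
      have a2 := abs_le.1 (h4 m hm1)
      have a3 : (x : ℝ) ≤ n := by exact_mod_cast hn.1.1
      have a4 : (n : ℝ) ≤ y := by exact_mod_cast hn.1.2.le
      rw [div_le_iff₀ (by positivity), le_div_iff₀ (by positivity)]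
      constructor <;> nlinarith [a1.1, a1.2, a2.1, a2.2]
    refine (cnt I _ _ ?_ key).trans ?_
    · rw [div_le_div_iff_of_pos_right (by positivity)]
      linarith
    · have : ((y : ℝ) - A - 13 * e) / (32 * e) - ((x : ℝ) - A - 19 * e) / (32 * e) =
          l / (32 * e) + 6 / 32 := by
        rw [hldef]
        field_simp
        ring
      rw [this]
      linarith
  have c5 : ((I.biUnion Tm).card : ℝ) ≤ (l / (32 * e) + 2) * (4 * e + 1) := by
    have a1 : (I.biUnion Tm).card ≤ ∑ m ∈ I, (Tm m).card := Finset.card_biUnion_le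
    have a2 : ((I.biUnion Tm).card : ℝ) ≤ ∑ m ∈ I, ((Tm m).card : ℝ) := by exact_mod_cast a1
    have a3 : ∑ m ∈ I, ((Tm m).card : ℝ) ≤ ∑ m ∈ I, (4 * e + 1) :=
      Finset.sum_le_sum fun m _ => (c3 m).trans (by linarith)
    rw [Finset.sum_const, nsmul_eq_mul] at a3
    refine (a2.trans a3).trans ?_
    exact mul_le_mul_of_nonneg_right c4 (by linarith)
  have c6 : (S.card : ℝ) ≤ (17 * e + 1) + ((17 * e + 1) + (l / (32 * e) + 2) * (4 * e + 1)) := by
    have a1 := (Finset.card_le_card hsub).trans ((Finset.card_union_le _ _).trans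
      (Nat.add_le_add_left (Finset.card_union_le _ _) _))
    have a2 : (S.card : ℝ) ≤ S1.card + (S2.card + (I.biUnion Tm).card) := by exact_mod_cast a1
    linarith
  -- the final estimate
  have d1 : 100 ≤ e := by
    by_contra hcon
    push Not at hcon
    have : len < 6400 * N := by
      rw [h1]
      nlinarith
    nlinarith
  have d2 : e ≤ l / 800 := by
    have : 64 * N * e ≤ 32 * q * l := by rw [← h1]; exact hl
    have h5 : 400 * q * (64 * e) ≤ 32 * q * l := by nlinarith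
    have hq0 : 0 < q := by linarith
    have h6 : 400 * (64 * e) ≤ 32 * l := by
      by_contra hcon
      push Not at hcon
      nlinarith
    linarith
  have d3 : l / (32 * e) * (4 * e + 1) ≤ l / 8 + l / 3200 := by
    have h5 : l / (32 * e) * (4 * e + 1) = l / 8 + l / (32 * e) := by
      field_simp
      ring
    rw [h5]
    have h6 : l / (32 * e) ≤ l / 3200 := by
      apply div_le_div_of_nonneg_left hl0.le (by norm_num)
      linarith
    linarith
  have d4 : (S.card : ℝ) ≤ l / 2 := by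
    refine c6.trans ?_
    have h5 : (l / (32 * e) + 2) * (4 * e + 1) = l / (32 * e) * (4 * e + 1) + 2 * (4 * e + 1) := by
      ring
    rw [h5]
    linarith
  linarith

end

theorem len_ge (Q J : ℕ) (hQ : 1 ≤ Q) (hJ : 1 ≤ J) : J ≤ (CC Q J).card := by
  have e : (CC Q J).card = (J + 1) ^ (2 * Q) - J ^ (2 * Q) := by
    unfold CC
    rw [Nat.card_Ioc]
  rw [e]
  obtain ⟨k, hk⟩ : ∃ k, 2 * Q = k + 2 := ⟨2 * Q - 2, by omega⟩
  rw [hk]
  have h1 : J ^ (k + 2) + J ≤ (J + 1) ^ (k + 2) := by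
    have h2 : J ^ (k + 1) ≤ (J + 1) ^ (k + 1) := Nat.pow_le_pow_left (by omega) _
    have h3 : J ≤ J ^ (k + 1) := by
      calc J = J ^ 1 := (pow_one J).symm
        _ ≤ J ^ (k + 1) := Nat.pow_le_pow_right hJ (by omega)
    calc J ^ (k + 2) + J = J ^ (k + 1) * J + J := by ring
      _ ≤ J ^ (k + 1) * J + J ^ (k + 1) := by omega
      _ = J ^ (k + 1) * (J + 1) := by ring
      _ ≤ (J + 1) ^ (k + 1) * (J + 1) := Nat.mul_le_mul_right _ h2
      _ = (J + 1) ^ (k + 2) := by ring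
  omega

theorem len_eq (Q J : ℕ) (hQ : 1 ≤ Q) :
    (((J + 1) ^ (2 * Q) : ℕ) : ℝ) = ((J ^ (2 * Q) : ℕ) : ℝ) + ((CC Q J).card : ℝ) := by
  have e : (CC Q J).card = (J + 1) ^ (2 * Q) - J ^ (2 * Q) := by
    unfold CC
    rw [Nat.card_Ioc]
  have h : J ^ (2 * Q) ≤ (J + 1) ^ (2 * Q) := Nat.pow_le_pow_left (by omega) _
  rw [e, Nat.cast_sub h]
  ring

theorem taskWt : TaskWt := by
  intro Q hQ
  refine ⟨400 * (4 * Q + 4), by omega, fun N hN => ?_⟩
  have hN1 : 1 ≤ N := by omega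
  have hN0 : (0 : ℝ) < N := by exact_mod_cast hN1
  refine ⟨1 / (64 * N), by positivity, 10000 * N * (4 * Q + 4), fun J hJ z hz D₀ hD1 hD2 => ?_⟩
  have hJ1 : 1 ≤ J := by
    refine le_trans ?_ hJ
    have : 1 ≤ N * (4 * Q + 4) := Nat.one_le_iff_ne_zero.2 (by positivity)
    nlinarith
  have hlenJ := len_ge Q J hQ hJ1
  have hbig : 10000 * (N : ℝ) * (4 * (Q : ℝ) + 4) ≤ (CC Q J).card := by
    have := hJ.trans hlenJ
    exact_mod_cast this
  have hlen : (0 : ℝ) < (CC Q J).card := by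
    have : 0 < (CC Q J).card := by omega
    exact_mod_cast this
  have g : Geo N z (J ^ (2 * Q)) ((J + 1) ^ (2 * Q)) ((CC Q J).card : ℝ) D₀ := by
    refine ⟨hN1, hlen, len_eq Q J hQ, fun m hm => ?_, hD1, hD2⟩
    have := hz m hm
    push_cast
    refine this.trans (le_of_eq ?_)
    ring
  refine ⟨g.Wt01, g.Wt_lip, g.WtA, g.WtB, ?_, g.trapA, g.trapB, trap_lip N z D₀ g.Dpos.le⟩
  intro x y hx hy hxy hl
  refine g.half (4 * (Q : ℝ) + 4) ?_ ?_ hbig x y hx hy hxy hl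
  · have : (0 : ℝ) ≤ Q := Nat.cast_nonneg Q
    linarith
  · exact_mod_cast hN

end Pool.Agent.W191.LV
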